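import Mathlib
import Pool.Agent.H27.Sid.Limit

/-!
# The Sidorenko exponent of the 3-uniform tight cycles

`s(C_{3ℓ}) / ℓ → 3` as `ℓ → ∞`.
-/

namespace Pool.Agent.Results.MP_de2958_co.TightCycleLimit

open Filter Topology Pool.Agent.H27.Sid

/-- The Sidorenko exponent of the tight cycle on `3 ℓ` vertices is `(3 + o(1)) ℓ`. -/
theorem result :
    Tendsto (fun ℓ : ℕ => sidorenkoExponent 3 (tightCycle ℓ) / ℓ) atTop (𝓝 3) :=
  limit

end Pool.Agent.Results.MP_de2958_co.TightCycleLimit
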